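import Mathlib

/-!
Nine points of the plane, five red and four blue, without a monochromatic circle, such that neither
colour class lies on a circle or on a line, and such that no inversion places the nine points on an
ellipse, on two disjoint circles, on an elliptic or acnodal circular cubic, or on a bicircular
quartic of elliptic or acnodal type.
-/

set_option autoImplicit false
set_option linter.all false

open MvPolynomial

namespace Pool.Agent.Results.MP_048963_co.NinePoints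

/-- The circle with centre `(a, b)` and radius `r`. -/
def circle (a b r : ℝ) : Set (ℝ × ℝ) := {p | (p.1 - a) ^ 2 + (p.2 - b) ^ 2 = r ^ 2}

/-- `C` is a circle of positive radius. -/
def IsCircle (C : Set (ℝ × ℝ)) : Prop := ∃ a b r : ℝ, 0 < r ∧ C = circle a b r

/-- `L` is a straight line. -/
def IsLine (L : Set (ℝ × ℝ)) : Prop :=
  ∃ a b c : ℝ, (a ≠ 0 ∨ b ≠ 0) ∧ L = {p | a * p.1 + b * p.2 = c}

/-- `C` contains at least three of the red points `R` and the blue points `B`, and all the points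
of `R ∪ B` on it have the same colour. -/
def IsMonochromatic (R B : Set (ℝ × ℝ)) (C : Set (ℝ × ℝ)) : Prop :=
  3 ≤ (C ∩ (R ∪ B)).ncard ∧ (C ∩ (R ∪ B) ⊆ R ∨ C ∩ (R ∪ B) ⊆ B)

/-- The inversion in the circle with centre `c` and radius `r`. -/
noncomputable def inversion (c : ℝ × ℝ) (r : ℝ) (p : ℝ × ℝ) : ℝ × ℝ :=
  (c.1 + r ^ 2 * ((p.1 - c.1) / ((p.1 - c.1) ^ 2 + (p.2 - c.2) ^ 2)),
   c.2 + r ^ 2 * ((p.2 - c.2) / ((p.1 - c.1) ^ 2 + (p.2 - c.2) ^ 2)))

/-- `Γ` is an ellipse. -/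
def IsEllipse (Γ : Set (ℝ × ℝ)) : Prop :=
  ∃ a b c d e f : ℝ, b ^ 2 < 4 * a * c ∧
    Γ = {p | a * p.1 ^ 2 + b * (p.1 * p.2) + c * p.2 ^ 2 + d * p.1 + e * p.2 + f = 0} ∧
    Γ.Nontrivial

/-- `Γ` is the union of two disjoint circles. -/
def IsTwoDisjointCircles (Γ : Set (ℝ × ℝ)) : Prop :=
  ∃ C D : Set (ℝ × ℝ), IsCircle C ∧ IsCircle D ∧ Disjoint C D ∧ Γ = C ∪ D

/-- The cubic form `(u x + v y) (x ^ 2 + y ^ 2) + q(x, y, z) z`, where
`q(x, y, z) = a x ^ 2 + b x y + c y ^ 2 + d x z + e y z + f z ^ 2`. -/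
noncomputable def circularForm (u v a b c d e f : ℝ) : MvPolynomial (Fin 3) ℝ :=
  (C u * X 0 + C v * X 1) * (X 0 ^ 2 + X 1 ^ 2) +
    (C a * X 0 ^ 2 + C b * (X 0 * X 1) + C c * X 1 ^ 2 + C d * (X 0 * X 2) + C e * (X 1 * X 2) +
      C f * X 2 ^ 2) * X 2

/-- `P` is a singular point over the complex numbers of the projective curve `F = 0`. -/
def IsSingular (F : MvPolynomial (Fin 3) ℝ) (P : Fin 3 → ℂ) : Prop :=
  P ≠ 0 ∧ aeval P F = 0 ∧ ∀ i, aeval P (pderiv i F) = 0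

/-- The projective curve `F = 0` is nonsingular. -/
def IsElliptic (F : MvPolynomial (Fin 3) ℝ) : Prop := ∀ P : Fin 3 → ℂ, ¬ IsSingular F P

/-- The projective curve `F = 0` has exactly one singular point, which is real, and which is an
isolated point of the set of real points of the curve. -/
def IsAcnodal (F : MvPolynomial (Fin 3) ℝ) : Prop :=
  ∃ P : Fin 3 → ℝ, IsSingular F (fun i => (P i : ℂ)) ∧
    (∀ Q : Fin 3 → ℂ, IsSingular F Q → ∃ t : ℂ, Q = t • fun i => (P i : ℂ)) ∧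
    ∃ ε : ℝ, 0 < ε ∧ ∀ Q : Fin 3 → ℝ, dist Q P < ε → eval Q F = 0 → ∃ t : ℝ, Q = t • P

/-- `Γ` is a circular cubic that is elliptic or acnodal. -/
def IsCircularCubic (Γ : Set (ℝ × ℝ)) : Prop :=
  ∃ u v a b c d e f : ℝ,
    (IsElliptic (circularForm u v a b c d e f) ∨ IsAcnodal (circularForm u v a b c d e f)) ∧
    Γ = {p | eval ![p.1, p.2, 1] (circularForm u v a b c d e f) = 0}

/-- `Γ` is a bicircular quartic of elliptic or acnodal type: the image of an elliptic or acnodal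
circular cubic under an inversion with centre off the cubic, the centre being the image of the
point at infinity. -/
def IsBicircularQuartic (Γ : Set (ℝ × ℝ)) : Prop :=
  ∃ (Γ₀ : Set (ℝ × ℝ)) (c : ℝ × ℝ) (r : ℝ), IsCircularCubic Γ₀ ∧ c ∉ Γ₀ ∧ 0 < r ∧
    Γ = insert c (inversion c r '' Γ₀)

/-- `S` lies on `Γ`, or is placed on `Γ` by an inversion with centre not in `S`. -/
def LiesUpToInversion (S Γ : Set (ℝ × ℝ)) : Prop :=
  S ⊆ Γ ∨ ∃ (c : ℝ × ℝ) (r : ℝ), c ∉ S ∧ 0 < r ∧ inversion c r '' S ⊆ Γ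

/-- `Γ` is the set of zeros of
`k₀ (x² + y²)² + (k₁ x + k₂ y) (x² + y²) + k₃ x² + k₄ x y + k₅ y² + k₆ x + k₇ y + k₈`, for real
numbers `k₀, ..., k₈` that are not all zero. -/
def IsCircularOrBicircular (Γ : Set (ℝ × ℝ)) : Prop :=
  ∃ k : Fin 9 → ℝ, k ≠ 0 ∧ Γ = {p | k 0 * (p.1 ^ 2 + p.2 ^ 2) ^ 2 +
    (k 1 * p.1 + k 2 * p.2) * (p.1 ^ 2 + p.2 ^ 2) + k 3 * p.1 ^ 2 + k 4 * (p.1 * p.2) +
    k 5 * p.2 ^ 2 + k 6 * p.1 + k 7 * p.2 + k 8 = 0}

/-! ### The configuration -/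

def Red : Set (ℝ × ℝ) := {(39, 0), (0, 0), (26, 26), (13, 13), (-39, -39)}

def Blue : Set (ℝ × ℝ) := {(0, 13), (39, -13), (15, 3), (25, 8)}

/-- The general polynomial. -/
def bf (k : Fin 9 → ℝ) (x y : ℝ) : ℝ :=
  k 0 * (x ^ 2 + y ^ 2) ^ 2 + (k 1 * x + k 2 * y) * (x ^ 2 + y ^ 2) + k 3 * x ^ 2 +
    k 4 * (x * y) + k 5 * y ^ 2 + k 6 * x + k 7 * y + k 8

theorem bf_eq_zero {k : Fin 9 → ℝ} (h : ∀ p ∈ Red ∪ Blue, bf k p.1 p.2 = 0) : k = 0 := by
  have h0 := h (39, 0) (by simp [Red])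
  have h1 := h (0, 0) (by simp [Red])
  have h2 := h (26, 26) (by simp [Red])
  have h3 := h (13, 13) (by simp [Red])
  have h4 := h (-39, -39) (by simp [Red])
  have h5 := h (0, 13) (by simp [Blue])
  have h6 := h (39, -13) (by simp [Blue])
  have h7 := h (15, 3) (by simp [Blue])
  have h8 := h (25, 8) (by simp [Blue])
  simp only [bf] at h0 h1 h2 h3 h4 h5 h6 h7 h8
  funext i
  fin_cases i <;> simp only [Pi.zero_apply]
  · show k 0 = 0
    linear_combination (17/10281960) * h0 + (-11/8225568) * h1 + (1/4569760) * h2 + (3/3655808) * h3 + (7/164511360) * h4 + (-17/25590656) * h6 + (17/4867200) * h7 + (-1/236600) * h8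
  · show k 1 = 0
    linear_combination (5/52728) * h1 + (-1/87880) * h2 + (11/70304) * h3 + (-1/351520) * h4 + (-1/10985) * h5 + (1/70304) * h6 + (-1/6240) * h7
  · show k 2 = 0
    linear_combination (-1/17576) * h1 + (3/87880) * h2 + (-15/70304) * h3 + (-1/1054560) * h4 + (1/10985) * h5 + (-1/70304) * h6 + (1/6240) * h7
  · show k 3 = 0
    linear_combination (-47/20280) * h0 + (-7/16224) * h1 + (-1/27040) * h2 + (-15/1664) * h3 + (19/324480) * h4 + (4/845) * h5 + (81/151424) * h6 + (-9/3200) * h7 + (13/1400) * h8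
  · show k 4 = 0
    linear_combination (1/10140) * h0 + (41/8112) * h1 + (-9/13520) * h2 + (89/10816) * h3 + (7/162240) * h4 + (-1/169) * h5 + (-11/75712) * h6 + (-13/1600) * h7 + (1/700) * h8
  · show k 5 = 0
    linear_combination (-341/60840) * h0 + (83/48672) * h1 + (23/27040) * h2 + (-99/21632) * h3 + (-7/973440) * h4 + (1/845) * h5 + (417/151424) * h6 + (-161/28800) * h7 + (13/1400) * h8
  · show k 6 = 0
    linear_combination (7/390) * h0 + (-23/312) * h1 + (3/520) * h2 + (27/416) * h3 + (-1/2080) * h4 + (-3/65) * h5 + (-9/2912) * h6 + (117/800) * h7 + (-39/350) * h8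
  · show k 7 = 0
    linear_combination (9/130) * h0 + (-9/104) * h1 + (-9/520) * h2 + (3/32) * h3 + (1/6240) * h4 + (3/65) * h5 + (-93/2912) * h6 + (91/2400) * h7 + (-39/350) * h8
  · show k 8 = 0
    linear_combination (1) * h1

/-! ### Transformations of the polynomials -/

/-- The translate of a polynomial. -/
def trans (s t : ℝ) (k : Fin 9 → ℝ) : Fin 9 → ℝ :=
  ![k 0, k 1 + 4 * s * k 0, k 2 + 4 * t * k 0,
    k 3 + (2 * (s ^ 2 + t ^ 2) + 4 * s ^ 2) * k 0 + 3 * s * k 1 + t * k 2,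
    k 4 + 8 * s * t * k 0 + 2 * t * k 1 + 2 * s * k 2,
    k 5 + (2 * (s ^ 2 + t ^ 2) + 4 * t ^ 2) * k 0 + s * k 1 + 3 * t * k 2,
    k 6 + 4 * (s ^ 2 + t ^ 2) * s * k 0 + (s ^ 2 + t ^ 2 + 2 * s ^ 2) * k 1 + 2 * s * t * k 2 +
      2 * s * k 3 + t * k 4,
    k 7 + 4 * (s ^ 2 + t ^ 2) * t * k 0 + 2 * s * t * k 1 + (s ^ 2 + t ^ 2 + 2 * t ^ 2) * k 2 +
      s * k 4 + 2 * t * k 5,
    k 8 + (s ^ 2 + t ^ 2) ^ 2 * k 0 + s * (s ^ 2 + t ^ 2) * k 1 + t * (s ^ 2 + t ^ 2) * k 2 +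
      s ^ 2 * k 3 + s * t * k 4 + t ^ 2 * k 5 + s * k 6 + t * k 7]

theorem bf_trans (s t : ℝ) (k : Fin 9 → ℝ) (x y : ℝ) :
    bf (trans s t k) x y = bf k (x + s) (y + t) := by
  simp only [bf, trans, Matrix.cons_val]
  ring

/-- The polynomial composed with the inversion in the circle with centre zero and radius `r`. -/
def star (r : ℝ) (k : Fin 9 → ℝ) : Fin 9 → ℝ :=
  ![k 8, r ^ 2 * k 6, r ^ 2 * k 7, r ^ 4 * k 3, r ^ 4 * k 4, r ^ 4 * k 5, r ^ 6 * k 1,
    r ^ 6 * k 2, r ^ 8 * k 0]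

theorem bf_star (r : ℝ) (k : Fin 9 → ℝ) (x y : ℝ) (h : x ^ 2 + y ^ 2 ≠ 0) :
    bf (star r k) x y = (x ^ 2 + y ^ 2) ^ 2 *
      bf k (r ^ 2 * (x / (x ^ 2 + y ^ 2))) (r ^ 2 * (y / (x ^ 2 + y ^ 2))) := by
  simp only [bf, star, Matrix.cons_val]
  field_simp
  ring

/-- The polynomial composed with an inversion. -/
def transf (c : ℝ × ℝ) (r : ℝ) (k : Fin 9 → ℝ) : Fin 9 → ℝ :=
  trans (-c.1) (-c.2) (star r (trans c.1 c.2 k))

theorem normSq_ne_zero {c p : ℝ × ℝ} (h : p ≠ c) : (p.1 - c.1) ^ 2 + (p.2 - c.2) ^ 2 ≠ 0 := by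
  intro h0
  apply h
  have h1 : p.1 - c.1 = 0 := by nlinarith [sq_nonneg (p.1 - c.1), sq_nonneg (p.2 - c.2)]
  have h2 : p.2 - c.2 = 0 := by nlinarith [sq_nonneg (p.1 - c.1), sq_nonneg (p.2 - c.2)]
  exact Prod.ext (by linarith) (by linarith)

theorem bf_transf (c : ℝ × ℝ) (r : ℝ) (k : Fin 9 → ℝ) (p : ℝ × ℝ) (h : p ≠ c) :
    bf (transf c r k) p.1 p.2 = ((p.1 - c.1) ^ 2 + (p.2 - c.2) ^ 2) ^ 2 *
      bf k (inversion c r p).1 (inversion c r p).2 := by
  have h1 := normSq_ne_zero h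
  unfold transf inversion
  rw [bf_trans]
  have h2 : (p.1 + -c.1) ^ 2 + (p.2 + -c.2) ^ 2 ≠ 0 := by
    simpa only [← sub_eq_add_neg] using h1
  rw [bf_star _ _ _ _ h2, bf_trans]
  simp only [← sub_eq_add_neg]
  rw [add_comm c.1, add_comm c.2]

theorem bf_transf_self (c : ℝ × ℝ) (r : ℝ) (k : Fin 9 → ℝ) :
    bf (transf c r k) c.1 c.2 = r ^ 8 * k 0 := by
  unfold transf
  rw [bf_trans]
  simp [bf, star, trans]

theorem inversion_ne {c : ℝ × ℝ} {r : ℝ} (hr : 0 < r) {p : ℝ × ℝ} (h : p ≠ c) :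
    inversion c r p ≠ c := by
  have h1 := normSq_ne_zero h
  intro h2
  apply h
  have h3 : r ^ 2 * ((p.1 - c.1) / ((p.1 - c.1) ^ 2 + (p.2 - c.2) ^ 2)) = 0 := by
    have := congrArg Prod.fst h2
    simp only [inversion] at this
    linarith
  have h4 : r ^ 2 * ((p.2 - c.2) / ((p.1 - c.1) ^ 2 + (p.2 - c.2) ^ 2)) = 0 := by
    have := congrArg Prod.snd h2
    simp only [inversion] at this
    linarith
  have hr2 : r ^ 2 ≠ 0 := by positivity
  have h5 : p.1 - c.1 = 0 := by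
    rcases mul_eq_zero.1 h3 with h | h
    · exact absurd h hr2
    · exact (div_eq_zero_iff.1 h).resolve_right h1
  have h6 : p.2 - c.2 = 0 := by
    rcases mul_eq_zero.1 h4 with h | h
    · exact absurd h hr2
    · exact (div_eq_zero_iff.1 h).resolve_right h1
  exact Prod.ext (by linarith) (by linarith)

theorem inversion_inversion {c : ℝ × ℝ} {r : ℝ} (hr : 0 < r) {p : ℝ × ℝ} (h : p ≠ c) :
    inversion c r (inversion c r p) = p := by
  have h1 := normSq_ne_zero h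
  have hr2 : r ≠ 0 := hr.ne'
  set N := (p.1 - c.1) ^ 2 + (p.2 - c.2) ^ 2 with hN
  have e1 : (inversion c r p).1 - c.1 = r ^ 2 * ((p.1 - c.1) / N) := by
    simp only [inversion, ← hN]; ring
  have e2 : (inversion c r p).2 - c.2 = r ^ 2 * ((p.2 - c.2) / N) := by
    simp only [inversion, ← hN]; ring
  have e3 : ((inversion c r p).1 - c.1) ^ 2 + ((inversion c r p).2 - c.2) ^ 2 = r ^ 4 / N := by
    rw [e1, e2]
    field_simp
    rw [hN]
  have e4 : inversion c r (inversion c r p) =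
      (c.1 + r ^ 2 * (((inversion c r p).1 - c.1) /
        (((inversion c r p).1 - c.1) ^ 2 + ((inversion c r p).2 - c.2) ^ 2)),
       c.2 + r ^ 2 * (((inversion c r p).2 - c.2) /
        (((inversion c r p).1 - c.1) ^ 2 + ((inversion c r p).2 - c.2) ^ 2))) := rfl
  rw [e4, e3, e1, e2]
  refine Prod.ext ?_ ?_
  · show c.1 + r ^ 2 * (r ^ 2 * ((p.1 - c.1) / N) / (r ^ 4 / N)) = p.1
    field_simp
    ring
  · show c.2 + r ^ 2 * (r ^ 2 * ((p.2 - c.2) / N) / (r ^ 4 / N)) = p.2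
    field_simp
    ring

theorem transf_eq_zero {c : ℝ × ℝ} {r : ℝ} (hr : 0 < r) {k : Fin 9 → ℝ}
    (h : transf c r k = 0) {p : ℝ × ℝ} (hp : p ≠ c) : bf k p.1 p.2 = 0 := by
  have h1 := bf_transf c r k (inversion c r p) (inversion_ne hr hp)
  rw [h, inversion_inversion hr hp] at h1
  have h2 : bf 0 (inversion c r p).1 (inversion c r p).2 = 0 := by simp [bf]
  rw [h2] at h1
  rcases mul_eq_zero.1 h1.symm with h3 | h3
  · exact absurd (pow_eq_zero_iff (two_ne_zero)|>.1 h3) (normSq_ne_zero (inversion_ne hr hp))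
  · exact h3

theorem eq_zero_of_ne {c : ℝ × ℝ} {k : Fin 9 → ℝ} (h : ∀ p : ℝ × ℝ, p ≠ c → bf k p.1 p.2 = 0) :
    k = 0 := by
  have h1 : trans (|c.1| + 100) 0 k = 0 := by
    apply bf_eq_zero
    intro p hp
    rw [bf_trans]
    refine h (p.1 + (|c.1| + 100), p.2 + 0) fun h2 => ?_
    have h3 := congrArg Prod.fst h2
    simp only at h3
    have h4 := le_abs_self c.1
    have h5 : -39 ≤ p.1 := by
      simp only [Red, Blue, Set.mem_union, Set.mem_insert_iff, Set.mem_singleton_iff] at hp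
      rcases hp with (rfl | rfl | rfl | rfl | rfl) | (rfl | rfl | rfl | rfl) <;> norm_num
    linarith
  apply bf_eq_zero
  intro p _
  have h2 := bf_trans (|c.1| + 100) 0 k (p.1 - (|c.1| + 100)) p.2
  rw [h1] at h2
  have h3 : bf 0 (p.1 - (|c.1| + 100)) p.2 = 0 := by simp [bf]
  rw [h3] at h2
  rw [h2]
  congr 1 <;> ring

theorem not_liesUpToInversion {k : Fin 9 → ℝ} (hk : k ≠ 0) {Γ : Set (ℝ × ℝ)}
    (hΓ : ∀ p ∈ Γ, bf k p.1 p.2 = 0) : ¬ LiesUpToInversion (Red ∪ Blue) Γ := by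
  rintro (h | ⟨c, r, hc, hr, h⟩)
  · exact hk (bf_eq_zero fun p hp => hΓ p (h hp))
  · apply hk
    have h1 : transf c r k = 0 := by
      apply bf_eq_zero
      intro p hp
      have hpc : p ≠ c := fun e => hc (e ▸ hp)
      rw [bf_transf c r k p hpc, hΓ _ (h ⟨p, hp, rfl⟩), mul_zero]
    apply bf_eq_zero
    intro p hp
    have hpc : p ≠ c := fun e => hc (e ▸ hp)
    exact transf_eq_zero hr h1 hpc

/-! ### The curves -/

theorem ellipse {Γ : Set (ℝ × ℝ)} (h : IsEllipse Γ) :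
    ∃ k : Fin 9 → ℝ, k ≠ 0 ∧ ∀ p ∈ Γ, bf k p.1 p.2 = 0 := by
  obtain ⟨a, b, c, d, e, f, h1, rfl, -⟩ := h
  refine ⟨![0, 0, 0, a, b, c, d, e, f], ?_, ?_⟩
  · intro h0
    have h2 := congrFun h0 3
    simp only [Matrix.cons_val, Pi.zero_apply] at h2
    rw [h2] at h1
    nlinarith [sq_nonneg b]
  · intro p hp
    simp only [Set.mem_setOf_eq] at hp
    simp only [bf, Matrix.cons_val]
    linarith

theorem twoCircles {Γ : Set (ℝ × ℝ)} (h : IsTwoDisjointCircles Γ) :
    ∃ k : Fin 9 → ℝ, k ≠ 0 ∧ ∀ p ∈ Γ, bf k p.1 p.2 = 0 := by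
  obtain ⟨C, D, ⟨a, b, r, -, rfl⟩, ⟨c, d, s, -, rfl⟩, -, rfl⟩ := h
  refine ⟨![1, -2 * (a + c), -2 * (b + d),
    (a ^ 2 + b ^ 2 - r ^ 2) + (c ^ 2 + d ^ 2 - s ^ 2) + 4 * a * c, 4 * (a * d + b * c),
    (a ^ 2 + b ^ 2 - r ^ 2) + (c ^ 2 + d ^ 2 - s ^ 2) + 4 * b * d,
    -2 * a * (c ^ 2 + d ^ 2 - s ^ 2) - 2 * c * (a ^ 2 + b ^ 2 - r ^ 2),
    -2 * b * (c ^ 2 + d ^ 2 - s ^ 2) - 2 * d * (a ^ 2 + b ^ 2 - r ^ 2),
    (a ^ 2 + b ^ 2 - r ^ 2) * (c ^ 2 + d ^ 2 - s ^ 2)], ?_, ?_⟩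
  · intro h0
    have h2 := congrFun h0 0
    simp at h2
  · intro p hp
    have h1 : bf ![1, -2 * (a + c), -2 * (b + d),
        (a ^ 2 + b ^ 2 - r ^ 2) + (c ^ 2 + d ^ 2 - s ^ 2) + 4 * a * c, 4 * (a * d + b * c),
        (a ^ 2 + b ^ 2 - r ^ 2) + (c ^ 2 + d ^ 2 - s ^ 2) + 4 * b * d,
        -2 * a * (c ^ 2 + d ^ 2 - s ^ 2) - 2 * c * (a ^ 2 + b ^ 2 - r ^ 2),
        -2 * b * (c ^ 2 + d ^ 2 - s ^ 2) - 2 * d * (a ^ 2 + b ^ 2 - r ^ 2),
        (a ^ 2 + b ^ 2 - r ^ 2) * (c ^ 2 + d ^ 2 - s ^ 2)] p.1 p.2 =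
        ((p.1 - a) ^ 2 + (p.2 - b) ^ 2 - r ^ 2) * ((p.1 - c) ^ 2 + (p.2 - d) ^ 2 - s ^ 2) := by
      simp only [bf, Matrix.cons_val]
      ring
    rw [h1]
    rcases hp with hp | hp
    · have h2 : (p.1 - a) ^ 2 + (p.2 - b) ^ 2 = r ^ 2 := hp
      rw [h2, sub_self, zero_mul]
    · have h2 : (p.1 - c) ^ 2 + (p.2 - d) ^ 2 = s ^ 2 := hp
      rw [h2, sub_self, mul_zero]

theorem isSingular_zero (P : Fin 3 → ℂ) (hP : P ≠ 0) : IsSingular 0 P :=
  ⟨hP, by simp, fun i => by simp⟩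

theorem not_elliptic_zero : ¬ IsElliptic 0 := by
  intro h
  exact h ![1, 0, 0] (isSingular_zero _ fun h0 => by simpa using congrFun h0 0)

theorem not_acnodal_zero : ¬ IsAcnodal 0 := by
  rintro ⟨P, hP, h, -⟩
  obtain ⟨t, ht⟩ := h ![1, 0, 0] (isSingular_zero _ fun h0 => by simpa using congrFun h0 0)
  obtain ⟨s, hs⟩ := h ![0, 1, 0] (isSingular_zero _ fun h0 => by simpa using congrFun h0 1)
  have h1 := congrFun ht 0
  have h2 := congrFun ht 1
  have h3 := congrFun hs 0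
  have h4 := congrFun hs 1
  simp at h1 h2 h3 h4
  rcases h2 with h2 | h2
  · rw [h2] at h1
    simp at h1
  · rw [h2] at h4
    simp at h4

theorem circularCubic {Γ : Set (ℝ × ℝ)} (h : IsCircularCubic Γ) :
    ∃ k : Fin 9 → ℝ, k ≠ 0 ∧ k 0 = 0 ∧ ∀ p ∈ Γ, bf k p.1 p.2 = 0 := by
  obtain ⟨u, v, a, b, c, d, e, f, h1, rfl⟩ := h
  refine ⟨![0, u, v, a, b, c, d, e, f], ?_, by simp, ?_⟩
  · intro h0
    have g1 := congrFun h0 1
    have g2 := congrFun h0 2
    have g3 := congrFun h0 3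
    have g4 := congrFun h0 4
    have g5 := congrFun h0 5
    have g6 := congrFun h0 6
    have g7 := congrFun h0 7
    have g8 := congrFun h0 8
    simp only [Matrix.cons_val, Pi.zero_apply] at g1 g2 g3 g4 g5 g6 g7 g8
    have h2 : circularForm u v a b c d e f = 0 := by
      rw [g1, g2, g3, g4, g5, g6, g7, g8]
      simp [circularForm]
    rw [h2] at h1
    rcases h1 with h1 | h1
    · exact not_elliptic_zero h1
    · exact not_acnodal_zero h1
  · intro p hp
    simp only [circularForm, Set.mem_setOf_eq, map_add, map_mul, map_pow, eval_C, eval_X,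
      Matrix.cons_val] at hp
    simp only [bf, Matrix.cons_val]
    linarith

theorem bicircular {Γ : Set (ℝ × ℝ)} (h : IsBicircularQuartic Γ) :
    ∃ k : Fin 9 → ℝ, k ≠ 0 ∧ ∀ p ∈ Γ, bf k p.1 p.2 = 0 := by
  obtain ⟨Γ₀, c, r, h1, hc, hr, rfl⟩ := h
  obtain ⟨k, hk, hk0, h2⟩ := circularCubic h1
  refine ⟨transf c r k, ?_, ?_⟩
  · intro h3
    exact hk (eq_zero_of_ne fun p hp => transf_eq_zero hr h3 hp)
  · rintro p (rfl | ⟨z, hz, rfl⟩)
    · rw [bf_transf_self, hk0, mul_zero]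
    · have hzc : z ≠ c := fun e => hc (e ▸ hz)
      rw [bf_transf c r k _ (inversion_ne hr hzc), inversion_inversion hr hzc, h2 z hz, mul_zero]

/-! ### No monochromatic circle -/

theorem no_red {a b r : ℝ} {p q s : ℝ × ℝ} (hp : p ∈ Red) (hq : q ∈ Red) (hs : s ∈ Red)
    (hpq : p ≠ q) (hps : p ≠ s) (hqs : q ≠ s) (h1 : p ∈ circle a b r) (h2 : q ∈ circle a b r)
    (h3 : s ∈ circle a b r) (h : ∀ t ∈ Blue, t ∉ circle a b r) : False := by
  have b1 := h (0, 13) (by simp [Blue])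
  have b2 := h (39, -13) (by simp [Blue])
  have b3 := h (15, 3) (by simp [Blue])
  have b4 := h (25, 8) (by simp [Blue])
  simp only [circle, Set.mem_setOf_eq] at h1 h2 h3 b1 b2 b3 b4
  simp only [Red, Set.mem_insert_iff, Set.mem_singleton_iff] at hp hq hs
  rcases hp with rfl | rfl | rfl | rfl | rfl <;> rcases hq with rfl | rfl | rfl | rfl | rfl <;>
    first
    | exact absurd rfl hpq
    | (rcases hs with rfl | rfl | rfl | rfl | rfl <;>
        first
        | exact absurd rfl hps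
        | exact absurd rfl hqs
        | linarith
        | (apply b1; linarith)
        | (apply b2; linarith)
        | (apply b3; linarith)
        | (apply b4; linarith))

theorem no_blue {a b r : ℝ} {p q s : ℝ × ℝ} (hp : p ∈ Blue) (hq : q ∈ Blue) (hs : s ∈ Blue)
    (hpq : p ≠ q) (hps : p ≠ s) (hqs : q ≠ s) (h1 : p ∈ circle a b r) (h2 : q ∈ circle a b r)
    (h3 : s ∈ circle a b r) (h : ∀ t ∈ Red, t ∉ circle a b r) : False := by
  have b1 := h (39, 0) (by simp [Red])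
  have b2 := h (0, 0) (by simp [Red])
  have b3 := h (26, 26) (by simp [Red])
  have b4 := h (13, 13) (by simp [Red])
  have b5 := h (-39, -39) (by simp [Red])
  simp only [circle, Set.mem_setOf_eq] at h1 h2 h3 b1 b2 b3 b4 b5
  simp only [Blue, Set.mem_insert_iff, Set.mem_singleton_iff] at hp hq hs
  rcases hp with rfl | rfl | rfl | rfl <;> rcases hq with rfl | rfl | rfl | rfl <;>
    first
    | exact absurd rfl hpq
    | (rcases hs with rfl | rfl | rfl | rfl <;>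
        first
        | exact absurd rfl hps
        | exact absurd rfl hqs
        | linarith
        | (apply b1; linarith)
        | (apply b2; linarith)
        | (apply b3; linarith)
        | (apply b4; linarith)
        | (apply b5; linarith))

theorem disj : Disjoint Red Blue := by
  rw [Set.disjoint_left]
  intro p hp hq
  simp only [Red, Blue, Set.mem_insert_iff, Set.mem_singleton_iff] at hp hq
  rcases hp with rfl | rfl | rfl | rfl | rfl <;> rcases hq with h | h | h | h <;>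
    (rw [Prod.mk.injEq] at h; norm_num at h)

theorem not_mono (C : Set (ℝ × ℝ)) (hC : IsCircle C) : ¬ IsMonochromatic Red Blue C := by
  obtain ⟨a, b, r, hr, rfl⟩ := hC
  rintro ⟨h3, h⟩
  have hfin : (circle a b r ∩ (Red ∪ Blue)).Finite := by
    apply Set.Finite.subset (s := Red ∪ Blue) _ Set.inter_subset_right
    simp [Red, Blue]
  obtain ⟨p, q, s, hp, hq, hs, hpq, hps, hqs⟩ := (Set.two_lt_ncard_iff hfin).1 h3
  rcases h with h | h
  · exact no_red (h hp) (h hq) (h hs) hpq hps hqs hp.1 hq.1 hs.1 fun t ht ht' =>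
      Set.disjoint_left.1 disj (h ⟨ht', Or.inr ht⟩) ht
  · exact no_blue (h hp) (h hq) (h hs) hpq hps hqs hp.1 hq.1 hs.1 fun t ht ht' =>
      Set.disjoint_left.1 disj ht (h ⟨ht', Or.inl ht⟩)

/-- There are five red and four blue points in the plane without a monochromatic circle, neither
colour class being contained in a circle or in a line, such that no inversion places them on an
ellipse, on two disjoint circles, on an elliptic or acnodal circular cubic, or on a bicircular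
quartic of elliptic or acnodal type. Even more, no inversion places them on any curve
`k₀ (x² + y²)² + (k₁ x + k₂ y) (x² + y²) + k₃ x² + k₄ x y + k₅ y² + k₆ x + k₇ y + k₈ = 0`. -/
theorem result : ∃ R B : Set (ℝ × ℝ), R.ncard = 5 ∧ B.ncard = 4 ∧ Disjoint R B ∧
    (∀ C, IsCircle C → ¬ IsMonochromatic R B C) ∧
    (∀ C, IsCircle C ∨ IsLine C → ¬ R ⊆ C ∧ ¬ B ⊆ C) ∧
    (∀ Γ, IsEllipse Γ ∨ IsTwoDisjointCircles Γ ∨ IsCircularCubic Γ ∨ IsBicircularQuartic Γ →
      ¬ LiesUpToInversion (R ∪ B) Γ) ∧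
    ∀ Γ, IsCircularOrBicircular Γ → ¬ LiesUpToInversion (R ∪ B) Γ := by
  refine ⟨Red, Blue, ?_, ?_, disj, not_mono, ?_, ?_, ?_⟩
  · have h : Red = ((({(39, 0), (0, 0), (26, 26), (13, 13), (-39, -39)} : Finset (ℝ × ℝ))) :
        Set (ℝ × ℝ)) := by simp [Red]
    rw [h, Set.ncard_coe_finset]
    rw [Finset.card_insert_of_notMem, Finset.card_insert_of_notMem, Finset.card_insert_of_notMem,
      Finset.card_insert_of_notMem, Finset.card_singleton] <;> norm_num
  · have h : Blue = ((({(0, 13), (39, -13), (15, 3), (25, 8)} : Finset (ℝ × ℝ))) :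
        Set (ℝ × ℝ)) := by simp [Blue]
    rw [h, Set.ncard_coe_finset]
    rw [Finset.card_insert_of_notMem, Finset.card_insert_of_notMem, Finset.card_insert_of_notMem,
      Finset.card_singleton] <;> norm_num
  · rintro C (⟨a, b, r, -, rfl⟩ | ⟨a, b, c, h, rfl⟩)
    · constructor
      · intro h
        have h0 := h (show ((0, 0) : ℝ × ℝ) ∈ Red by simp [Red])
        have h1 := h (show ((26, 26) : ℝ × ℝ) ∈ Red by simp [Red])
        have h2 := h (show ((13, 13) : ℝ × ℝ) ∈ Red by simp [Red])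
        simp only [circle, Set.mem_setOf_eq] at h0 h1 h2
        linarith
      · intro h
        have h0 := h (show ((0, 13) : ℝ × ℝ) ∈ Blue by simp [Blue])
        have h1 := h (show ((39, -13) : ℝ × ℝ) ∈ Blue by simp [Blue])
        have h2 := h (show ((15, 3) : ℝ × ℝ) ∈ Blue by simp [Blue])
        simp only [circle, Set.mem_setOf_eq] at h0 h1 h2
        linarith
    · constructor
      · intro h3
        have h0 := h3 (show ((0, 0) : ℝ × ℝ) ∈ Red by simp [Red])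
        have h1 := h3 (show ((26, 26) : ℝ × ℝ) ∈ Red by simp [Red])
        have h2 := h3 (show ((39, 0) : ℝ × ℝ) ∈ Red by simp [Red])
        simp only [Set.mem_setOf_eq] at h0 h1 h2
        rcases h with h | h
        · exact h (by linarith)
        · exact h (by linarith)
      · intro h3
        have h0 := h3 (show ((0, 13) : ℝ × ℝ) ∈ Blue by simp [Blue])
        have h1 := h3 (show ((39, -13) : ℝ × ℝ) ∈ Blue by simp [Blue])
        have h2 := h3 (show ((25, 8) : ℝ × ℝ) ∈ Blue by simp [Blue])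
        simp only [Set.mem_setOf_eq] at h0 h1 h2
        rcases h with h | h
        · exact h (by linarith)
        · exact h (by linarith)
  · rintro Γ (h | h | h | h)
    · obtain ⟨k, hk, hΓ⟩ := ellipse h
      exact not_liesUpToInversion hk hΓ
    · obtain ⟨k, hk, hΓ⟩ := twoCircles h
      exact not_liesUpToInversion hk hΓ
    · obtain ⟨k, hk, -, hΓ⟩ := circularCubic h
      exact not_liesUpToInversion hk hΓ
    · obtain ⟨k, hk, hΓ⟩ := bicircular h
      exact not_liesUpToInversion hk hΓ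
  · rintro Γ ⟨k, hk, rfl⟩
    exact not_liesUpToInversion hk fun p hp => hp

end Pool.Agent.Results.MP_048963_co.NinePoints
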